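import Pool.Agent.Run7.h278.LG.RateLI

set_option autoImplicit false

/-!
# The rate of convergence of the moments of a prime sum, and effective linear independence of the ordinates

For `K ≥ 1` let `V δ = δ ∫_0^∞ e^(-δ u) a(u)^(2K) du` where
`a(u) = e^(u/2) (∑_{n ≤ e^u} Λ(n) (1/n - e^(-u)) - u + 1 + γ)`.  Then `V δ` is finite and converges for `δ → 0+` with a
rate `O(δ^c)` for some `c > 0` exactly if the Riemann hypothesis holds and the sums of `2K` numbers `±γ`, `γ` in the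
set `Γ` of the positive ordinates of the zeros, `γ ≤ X`, are zero or at least `c' X^(-A)` in absolute value, for some
`A, c' > 0`.  The limit is for every `K` the moment for independent phases, and the rate is a power for every `K`,
exactly if the Riemann hypothesis holds, `Γ` is linearly independent over `ℚ` and those bounds hold for sums of every
fixed length.
-/

namespace Pool.Agent.Results.MP_0ec205_nt.EffectiveIndependence

open Filter Topology MeasureTheory Set Run7.h278.LM Run7.h278.WL Run7.h278.LG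
open scoped ENNReal

/-- the positive ordinates of the zeros on the critical line -/
def Γ : Set ℝ := {t : ℝ | 0 < t ∧ riemannZeta (1 / 2 + Complex.I * t) = 0}

/-- the multiplicity of the zero `1/2 + i t` -/
noncomputable def mult (t : Γ) : ℕ := analyticOrderNatAt riemannZeta (1 / 2 + Complex.I * (t : ℝ))

/-- the remainder in the mean value of the von Mangoldt function, at `x = e^u` -/
noncomputable def a (u : ℝ) : ℝ :=
  Real.exp (u / 2) * (∑ n ∈ Finset.Icc 1 ⌊Real.exp u⌋₊, ArithmeticFunction.vonMangoldt n * (1 / (n : ℝ) - Real.exp (-u)) -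
    u + 1 + Real.eulerMascheroniConstant)

/-- the Abel mean of `a(u)^(2K)` -/
noncomputable def V (K : ℕ) (δ : ℝ) : ℝ≥0∞ :=
  ∫⁻ u in Ioi (0 : ℝ), ENNReal.ofReal (δ * Real.exp (-δ * u) * a u ^ (2 * K))

/-- `V` is finite and converges to `L` with the rate `O(δ^c)` -/
def Rate (K : ℕ) (L c : ℝ) : Prop := ∃ C : ℝ, ∀ δ : ℝ, 0 < δ → δ < 1 → V K δ < ⊤ ∧ |(V K δ).toReal - L| ≤ C * δ ^ c

/-- the sums of `p` numbers `±γ` with `γ ∈ Γ`, `γ ≤ X` are zero or at least `c X^(-A)` in absolute value -/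
def Effective (p : ℕ) (A : ℝ) : Prop := ∃ c : ℝ, 0 < c ∧ ∀ X : ℝ, 1 ≤ X → ∀ f : Fin p → ℝ, (∀ i, |f i| ∈ Γ ∧ |f i| ≤ X) →
  ∑ i, f i ≠ 0 → c * X ^ (-A) ≤ |∑ i, f i|

/-- the term of the exponents `n` in the moment for independent phases -/
noncomputable def term {ι : Type} (w : ι → ℝ) (n : ι →₀ ℕ) : ℝ := (n.prod fun x k => w x ^ k / (k.factorial : ℝ)) ^ 2

/-- the moment for independent phases -/
noncomputable def Dmom (K : ℕ) : ℝ :=
  (2 * K).factorial * ∑' n : {n : Γ →₀ ℕ // n.degree = K}, term (fun t : Γ => mult t / (1 / 4 + (t : ℝ) ^ 2)) n.1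

/-- **The theorem.** -/
theorem result :
    (∀ K : ℕ, 1 ≤ K →
      (Summable fun n : {n : Γ →₀ ℕ // n.degree = K} => term (fun t : Γ => mult t / (1 / 4 + (t : ℝ) ^ 2)) n.1) ∧
      ((∃ L c : ℝ, 0 < c ∧ Rate K L c) ↔ RiemannHypothesis ∧ ∃ A : ℝ, 0 < A ∧ Effective (2 * K) A) ∧
      (∀ c : ℝ, 0 < c → c ≤ 1 → (∃ L : ℝ, Rate K L c) → RiemannHypothesis ∧ Effective (2 * K) (4 * K / c)) ∧
      (∀ A : ℝ, 0 ≤ A → RiemannHypothesis → Effective (2 * K) A → ∃ L : ℝ, Rate K L (1 / (2 * (A + 1))))) ∧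
    ((∀ K : ℕ, 1 ≤ K → ∃ c : ℝ, 0 < c ∧ Rate K (Dmom K) c) ↔
      RiemannHypothesis ∧ (LinearIndependent ℚ fun t : Γ => (t : ℝ)) ∧ ∀ p : ℕ, ∃ A : ℝ, 0 < A ∧ Effective p A) := by
  have hV : ∀ K : ℕ, V K = PM aa 0 K := by
    intro K
    funext δ
    unfold V PM
    simp_rw [sub_zero]
    rfl
  obtain ⟨h1, -, h3⟩ := zeta_rate_LI
  have hE : ∀ p : ℕ, EffT TZ p ↔ ∃ A : ℝ, 0 < A ∧ Effective p A := fun p => EffT_iff TZ p
  have hRt : ∀ (K : ℕ) (L c : ℝ), Rate K L c ↔ ∃ C : ℝ, ∀ δ : ℝ, 0 < δ → δ < 1 → PM aa 0 K δ < ⊤ ∧ |(PM aa 0 K δ).toReal - L| ≤ C * δ ^ c := by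
    intro K L c
    unfold Rate
    rw [hV]
  refine ⟨fun K hK => ⟨?_, ?_, ?_, ?_⟩, ?_⟩
  · set e : Γ ≃ TI := Equiv.subtypeEquivRight fun t => by
      show 0 < t ∧ riemannZeta (1 / 2 + Complex.I * t) = 0 ↔ _
      rw [Z_zero_iff] with he
    have hw1 : ∀ t : Γ, 0 < (mult t : ℝ) / (1 / 4 + (t : ℝ) ^ 2) := fun t => WW_pos (e t)
    have hs1 : Summable fun t : Γ => (mult t : ℝ) / (1 / 4 + (t : ℝ) ^ 2) := e.summable_iff.2 WW_summable
    exact sq_summable hw1 hs1 K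
  · have h4 := h1 K hK
    rw [hE] at h4
    rw [← h4]
    constructor
    · rintro ⟨L, c, hc, h⟩
      obtain ⟨C, h⟩ := (hRt K L c).1 h
      exact ⟨L, c, C, hc, h⟩
    · rintro ⟨L, c, C, hc, h⟩
      exact ⟨L, c, hc, (hRt K L c).2 ⟨C, h⟩⟩
  · rintro c hc hc1 ⟨L, h⟩
    obtain ⟨C, h⟩ := (hRt K L c).1 h
    exact (zeta_exp hK).1 c hc hc1 ⟨L, C, h⟩
  · intro A hA hRH h
    obtain ⟨L, C, h⟩ := (zeta_exp hK).2 A hA hRH h
    exact ⟨L, (hRt K L _).2 ⟨C, h⟩⟩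
  · have hD : ∀ K : ℕ, Dmom K = DmZ K := fun K => rfl
    have h5 : (∀ K : ℕ, 1 ≤ K → ∃ c : ℝ, 0 < c ∧ Rate K (Dmom K) c) ↔
        (∀ K : ℕ, 1 ≤ K → ∃ c C : ℝ, 0 < c ∧ ∀ δ : ℝ, 0 < δ → δ < 1 → PM aa 0 K δ < ⊤ ∧ |(PM aa 0 K δ).toReal - DmZ K| ≤ C * δ ^ c) := by
      refine forall_congr' fun K => forall_congr' fun hK => ?_
      constructor
      · rintro ⟨c, hc, h⟩
        obtain ⟨C, h⟩ := (hRt K _ c).1 h
        exact ⟨c, C, hc, h⟩
      · rintro ⟨c, C, hc, h⟩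
        exact ⟨c, hc, (hRt K _ c).2 ⟨C, h⟩⟩
    rw [h5, h3]
    refine and_congr_right fun _ => and_congr_right fun _ => forall_congr' fun p => hE p

end Pool.Agent.Results.MP_0ec205_nt.EffectiveIndependence
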