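import Pool.Agent.Run7.h278.LM.Fin

set_option autoImplicit false

/-!
# A mean value which detects rational relations between the ordinates of the zeros of zeta

For `s > 0` let `M s δ = δ ∫_0^∞ e^(-δ u) cosh (s a(u)) du` where
`a(u) = e^(u/2) (∑_{n ≤ e^u} Λ(n) (1/n - e^(-u)) - u + 1 + γ)`.  As `δ → 0+` it has a limit
`L` in `[0, ∞]`; it is finite exactly on the Riemann hypothesis; it is never smaller than the product of
`I_0 (2 s / (1/4 + t²))` over the positive ordinates `t` on the critical line, with multiplicity; and it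
is equal to this product exactly if the Riemann hypothesis holds, all the zeros are simple and the
positive ordinates are linearly independent over `ℚ`.
-/

namespace Pool.Agent.Results.MP_0ec205_nt.ExponentialMoments

open Filter Topology MeasureTheory Set Run7.h278.LM Run7.h278.WL
open scoped ENNReal

/-- the positive ordinates of the zeros on the critical line -/
abbrev Ord : Type := {t : ℝ // 0 < t ∧ riemannZeta (1 / 2 + Complex.I * t) = 0}

/-- the multiplicity of the zero `1/2 + i t` -/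
noncomputable def mult (t : Ord) : ℕ := analyticOrderNatAt riemannZeta (1 / 2 + Complex.I * (t : ℝ))

/-- the remainder in the mean value of the von Mangoldt function, at `x = e^u` -/
noncomputable def a (u : ℝ) : ℝ :=
  Real.exp (u / 2) * (∑ n ∈ Finset.Icc 1 ⌊Real.exp u⌋₊, ArithmeticFunction.vonMangoldt n * (1 / (n : ℝ) - Real.exp (-u)) -
    u + 1 + Real.eulerMascheroniConstant)

/-- the Abel mean of `cosh (s a(u))` -/
noncomputable def M (s δ : ℝ) : ℝ≥0∞ :=
  ∫⁻ u in Ioi (0 : ℝ), ENNReal.ofReal (δ * Real.exp (-δ * u) * Real.cosh (s * a u))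

/-- the modified Bessel function `I_0` -/
noncomputable def I0 (y : ℝ) : ℝ := ∑' k : ℕ, ((y / 2) ^ k / (k.factorial : ℝ)) ^ 2

/-- the two descriptions of the ordinates -/
def e : Ord ≃ TI := Equiv.subtypeEquivRight fun t => by rw [Z_zero_iff]

theorem e_val (t : Ord) : ((e t : TI) : ℝ) = t := rfl

theorem I0_J (w : ℝ) : I0 (2 * w) = J w := by
  unfold I0 J
  refine tsum_congr fun k => ?_
  rw [mul_div_cancel_left₀ _ two_ne_zero]

theorem mult_mt (t : Ord) : mult t = mt ((e t : TI) : ℝ) := rfl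

/-- the ordinates with multiplicity -/
abbrev Om : Type := Σ t : TI, Fin (mt (t : ℝ))

/-- the weights with multiplicity -/
noncomputable def wm (s : ℝ) (x : Om) : ℝ := s / (1 / 4 + (x.1 : ℝ) ^ 2)

theorem wm_pos {s : ℝ} (hs : 0 < s) (x : Om) : 0 < wm s x := by
  unfold wm
  positivity

theorem wm_sum {s : ℝ} (hs : 0 < s) : Summable (wm s) := by
  rw [summable_sigma_of_nonneg fun x => (wm_pos hs x).le]
  refine ⟨fun t => (hasSum_fintype _).summable, ?_⟩
  refine (WW_summable.mul_left s).congr fun t => ?_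
  rw [tsum_fintype]
  unfold wm WW
  simp only [Finset.sum_const, Finset.card_univ, Fintype.card_fin, nsmul_eq_mul]
  ring

theorem FI_wm {s : ℝ} (hs : 0 < s) : FI (wm s) (fun x : Om => (x.1 : ℝ)) = fun u => s * FFz u := by
  funext u
  unfold FI FFz
  have h1 : Summable fun x : Om => 2 * wm s x * Real.cos ((x.1 : ℝ) * u) :=
    Summable.of_norm_bounded ((wm_sum hs).mul_left 2) (fun x => term_le (wm s) (fun x : Om => (x.1 : ℝ)) (wm_pos hs) x u)
  rw [h1.tsum_sigma' fun t => (hasSum_fintype _).summable, ← tsum_mul_left]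
  refine tsum_congr fun t => ?_
  rw [tsum_fintype]
  unfold wm WW
  simp only [Finset.sum_const, Finset.card_univ, Fintype.card_fin, nsmul_eq_mul]
  ring

theorem FI_WW {s : ℝ} : FI (fun t : TI => s * WW t) (fun t : TI => (t : ℝ)) = fun u => s * FFz u := by
  funext u
  unfold FI FFz
  rw [← tsum_mul_left]
  refine tsum_congr fun t => ?_
  ring

theorem prod_fin {s : ℝ} (t : TI) : ∏' k : Fin (mt (t : ℝ)), J (wm s ⟨t, k⟩) = J (s / (1 / 4 + (t : ℝ) ^ 2)) ^ mt (t : ℝ) := by
  rw [tprod_fintype]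
  unfold wm
  simp

theorem mult_C {s : ℝ} (hs : 0 < s) : Multipliable fun t : TI => J (s / (1 / 4 + (t : ℝ) ^ 2)) ^ mt (t : ℝ) := by
  have h := J_mult (wm_pos hs) (wm_sum hs)
  have h1 := h.hasProd.sigma (f := fun x : Om => J (wm s x)) (g := fun t : TI => J (s / (1 / 4 + (t : ℝ) ^ 2)) ^ mt (t : ℝ)) fun t => by
    rw [← prod_fin]
    exact (hasProd_fintype _).multipliable.hasProd
  exact h1.multipliable

theorem prod_C {s : ℝ} (hs : 0 < s) : ∏' x : Om, J (wm s x) = ∏' t : TI, J (s / (1 / 4 + (t : ℝ) ^ 2)) ^ mt (t : ℝ) := by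
  have h := J_mult (wm_pos hs) (wm_sum hs)
  rw [h.tprod_sigma' fun t => (hasProd_fintype _).multipliable]
  exact tprod_congr fun t => prod_fin t

/-- linear independence with multiplicity -/
theorem li_mult : LinearIndependent ℚ (fun x : Om => (x.1 : ℝ)) ↔
    (∀ t : TI, mt (t : ℝ) = 1) ∧ LinearIndependent ℚ (fun t : TI => (t : ℝ)) := by
  constructor
  · intro h
    constructor
    · intro t
      have h1 := mt_pos t
      by_contra hne
      have h2 : 1 < mt (t : ℝ) := by omega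
      have h3 := h.injective (a₁ := (⟨t, ⟨0, h1⟩⟩ : Om)) (a₂ := ⟨t, ⟨1, h2⟩⟩) rfl
      simp at h3
    · refine h.comp (fun t : TI => (⟨t, ⟨0, mt_pos t⟩⟩ : Om)) fun t t' htt => ?_
      exact (Sigma.mk.inj htt).1
  · rintro ⟨h1, h2⟩
    refine h2.comp (fun x : Om => x.1) ?_
    rintro ⟨t, k⟩ ⟨t', k'⟩ htt
    have : t = t' := htt
    subst this
    congr 1
    have h3 := h1 t
    apply Fin.ext
    omega

/-- **The theorem.** -/
theorem result (s : ℝ) (hs : 0 < s) :
    (Multipliable fun t : Ord => I0 (2 * s / (1 / 4 + (t : ℝ) ^ 2)) ^ mult t) ∧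
    (Multipliable fun t : Ord => I0 (2 * s * mult t / (1 / 4 + (t : ℝ) ^ 2))) ∧
    ∃ L : ℝ≥0∞, Tendsto (M s) (𝓝[>] 0) (𝓝 L) ∧
      ENNReal.ofReal (∏' t : Ord, I0 (2 * s / (1 / 4 + (t : ℝ) ^ 2)) ^ mult t) ≤ L ∧
      (L < ⊤ ↔ RiemannHypothesis) ∧
      ((∀ δ : ℝ, 0 < δ → M s δ < ⊤) ↔ RiemannHypothesis) ∧
      (L = ENNReal.ofReal (∏' t : Ord, I0 (2 * s / (1 / 4 + (t : ℝ) ^ 2)) ^ mult t) ↔
        RiemannHypothesis ∧ (∀ t : Ord, mult t = 1) ∧ LinearIndependent ℚ (fun t : Ord => (t : ℝ))) ∧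
      (RiemannHypothesis →
        ENNReal.ofReal (∏' t : Ord, I0 (2 * s * mult t / (1 / 4 + (t : ℝ) ^ 2))) ≤ L ∧
        (L = ENNReal.ofReal (∏' t : Ord, I0 (2 * s * mult t / (1 / 4 + (t : ℝ) ^ 2))) ↔
          LinearIndependent ℚ (fun t : Ord => (t : ℝ)))) := by
  have hM : M s = ME s := rfl
  have eC : (fun t : Ord => I0 (2 * s / (1 / 4 + (t : ℝ) ^ 2)) ^ mult t) =
      (fun t : TI => J (s / (1 / 4 + (t : ℝ) ^ 2)) ^ mt (t : ℝ)) ∘ e := by
    funext t
    simp only [Function.comp_apply]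
    rw [← I0_J, mult_mt, e_val]
    congr 2
    ring
  have eD : (fun t : Ord => I0 (2 * s * mult t / (1 / 4 + (t : ℝ) ^ 2))) = (fun t : TI => J (s * WW t)) ∘ e := by
    funext t
    simp only [Function.comp_apply]
    rw [← I0_J]
    unfold WW
    rw [← mult_mt, e_val]
    congr 1
    ring
  have hW0 : ∀ t : TI, 0 < s * WW t := fun t => mul_pos hs (WW_pos t)
  have hWs : Summable fun t : TI => s * WW t := WW_summable.mul_left s
  have tC : ∏' t : Ord, I0 (2 * s / (1 / 4 + (t : ℝ) ^ 2)) ^ mult t = ∏' x : Om, J (wm s x) := by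
    rw [eC, prod_C hs]
    exact e.tprod_eq (fun t : TI => J (s / (1 / 4 + (t : ℝ) ^ 2)) ^ mt (t : ℝ))
  have tD : ∏' t : Ord, I0 (2 * s * mult t / (1 / 4 + (t : ℝ) ^ 2)) = ∏' t : TI, J (s * WW t) := by
    rw [eD]
    exact e.tprod_eq (fun t : TI => J (s * WW t))
  have hli : LinearIndependent ℚ (fun t : Ord => (t : ℝ)) ↔ LinearIndependent ℚ (fun t : TI => (t : ℝ)) := by
    have : (fun t : Ord => (t : ℝ)) = (fun t : TI => (t : ℝ)) ∘ e := rfl
    rw [this]
    exact linearIndependent_equiv e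
  have hmu : (∀ t : Ord, mult t = 1) ↔ ∀ t : TI, mt (t : ℝ) = 1 := by
    constructor
    · intro h t
      have := h (e.symm t)
      rwa [mult_mt, e.apply_symm_apply] at this
    · intro h t
      rw [mult_mt]
      exact h _
  refine ⟨?_, ?_, ?_⟩
  · rw [eC, e.multipliable_iff]
    exact mult_C hs
  · rw [eD, e.multipliable_iff]
    exact J_mult hW0 hWs
  rw [tC, tD, hM, hli, hmu]
  by_cases hRH : RiemannHypothesis
  · obtain ⟨L, h1, h2, h3⟩ := main_mean (w := wm s) (fun x : Om => (x.1 : ℝ)) (wm_pos hs) (wm_sum hs)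
      fun x => x.1.2.1.ne'
    obtain ⟨L', h1', h2', h3'⟩ := main_mean (w := fun t : TI => s * WW t) (fun t : TI => (t : ℝ)) hW0 hWs
      fun t => t.2.1.ne'
    rw [FI_wm hs] at h1
    rw [FI_WW] at h1'
    have hLL : L' = L := tendsto_nhds_unique h1' h1
    rw [hLL] at h1' h2' h3'
    obtain ⟨hm1, hm2⟩ := aa_mean hRH hs h1
    have hP : 1 ≤ ∏' x : Om, J (wm s x) := by
      refine ge_of_tendsto' ((J_mult (wm_pos hs) (wm_sum hs)).hasProd : Tendsto _ _ _) fun S => prodJ_pos S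
    have hP' : 1 ≤ ∏' t : TI, J (s * WW t) := by
      refine ge_of_tendsto' ((J_mult hW0 hWs).hasProd : Tendsto _ _ _) fun S => prodJ_pos (w := fun t : TI => s * WW t) S
    have hLn : 0 ≤ L := by linarith
    refine ⟨ENNReal.ofReal L, hm1, ENNReal.ofReal_le_ofReal h2, ⟨fun _ => hRH, fun _ => ENNReal.ofReal_lt_top⟩,
      ⟨fun _ => hRH, fun _ => hm2⟩, ?_, fun _ => ⟨ENNReal.ofReal_le_ofReal h2', ?_⟩⟩
    · rw [ENNReal.ofReal_eq_ofReal_iff hLn (by linarith), h3, li_mult]
      exact ⟨fun h => ⟨hRH, h⟩, fun h => h.2⟩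
    · rw [ENNReal.ofReal_eq_ofReal_iff hLn (by linarith), h3']
  · obtain ⟨δ₀, h0, htop⟩ := off_top hRH hs
    refine ⟨⊤, ?_, le_top, ⟨fun h => absurd h (lt_irrefl _), fun h => absurd h hRH⟩, ⟨fun h => ?_, fun h => absurd h hRH⟩,
      ⟨fun h => absurd h.symm ENNReal.ofReal_ne_top, fun h => absurd h.1 hRH⟩, fun h => absurd h hRH⟩
    · refine tendsto_const_nhds.congr' ?_
      filter_upwards [Ioo_mem_nhdsGT h0] with δ hδ
      exact (htop δ hδ.1 hδ.2).symm
    · have h1 := h (δ₀ / 2) (by linarith)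
      rw [htop (δ₀ / 2) (by linarith) (by linarith)] at h1
      exact absurd h1 (lt_irrefl _)

end Pool.Agent.Results.MP_0ec205_nt.ExponentialMoments
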