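import Pool.Agent.Run7.h278.LG.Zt

set_option autoImplicit false

/-!
# Extreme values of a prime sum and relations with odd coefficient sum between the ordinates

Let `a(u) = e^(u/2) (∑_{n ≤ e^u} Λ(n) (1/n - e^(-u)) - u + 1 + γ)` and `S = 2 + γ - log (4π) = 0.0461…`.  The
Riemann hypothesis holds exactly if `a` is bounded, and then `limsup a = S` and `liminf a ≥ -S`.  The lower limit is
`-S`, so that `a` oscillates symmetrically, exactly if there is no relation `∑ m_γ γ = 0` with integers `m_γ` of odd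
sum between the positive ordinates; and the mean values of the odd powers `a^(2k+1)` exist and are nonnegative, the
mean value of `a^(2k+1)` being zero exactly if there is no such relation with `∑ |m_γ| ≤ 2k+1`.
-/

namespace Pool.Agent.Results.MP_0ec205_nt.ExtremeValues

open Filter Topology MeasureTheory Set Run7.h278.LM Run7.h278.WL Run7.h278.LG

/-- the positive ordinates of the zeros on the critical line -/
abbrev Ord : Type := {t : ℝ // 0 < t ∧ riemannZeta (1 / 2 + Complex.I * t) = 0}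

/-- the remainder in the mean value of the von Mangoldt function, at `x = e^u` -/
noncomputable def a (u : ℝ) : ℝ :=
  Real.exp (u / 2) * (∑ n ∈ Finset.Icc 1 ⌊Real.exp u⌋₊, ArithmeticFunction.vonMangoldt n * (1 / (n : ℝ) - Real.exp (-u)) -
    u + 1 + Real.eulerMascheroniConstant)

/-- the upper limit `2 + γ - log (4π)` -/
noncomputable def S : ℝ := 2 + Real.eulerMascheroniConstant - Real.log (4 * Real.pi)

/-- the function is bounded -/
def Bounded : Prop := ∃ B : ℝ, ∀ u : ℝ, 0 < u → |a u| ≤ B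

/-- the Abel mean of `a^p` -/
noncomputable def mean (p : ℕ) (δ : ℝ) : ℝ := δ * ∫ u : ℝ in Ioi 0, Real.exp (-δ * u) * a u ^ p

/-- there is no relation with odd sum of the coefficients -/
def NoOdd : Prop := ∀ m : Ord →₀ ℤ, Odd (m.sum fun _ k => k) → (m.sum fun t k => (k : ℝ) * (t : ℝ)) ≠ 0

/-- there is no relation with odd sum of the coefficients and length at most `p` -/
def NoOddUpTo (p : ℕ) : Prop := ∀ m : Ord →₀ ℤ, Odd (m.sum fun _ k => k) → (m.sum fun _ k => k.natAbs) ≤ p →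
  (m.sum fun t k => (k : ℝ) * (t : ℝ)) ≠ 0

/-- the two descriptions of the ordinates -/
def e : Ord ≃ TI := Equiv.subtypeEquivRight fun t => by rw [Z_zero_iff]

theorem noOdd_iff : ¬Od (fun t : Ord => (t : ℝ)) ↔ NoOdd := by
  unfold Od NoOdd
  constructor
  · intro h m h1 h2
    exact h ⟨m, h2, h1⟩
  · rintro h ⟨m, h1, h2⟩
    exact h m h2 h1

theorem noOddUpTo_iff (k : ℕ) : ¬Rl (fun t : Ord => (t : ℝ)) (2 * k + 1) ↔ NoOddUpTo (2 * k + 1) := by
  unfold Rl NoOddUpTo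
  constructor
  · intro h m h1 h2 h3
    rw [natAbs_sum_odd] at h1
    refine h ⟨m, ?_, h3, h2, ?_⟩
    · rintro rfl
      simp at h1
    · rw [Nat.even_iff]
      rw [Nat.odd_iff] at h1
      omega
  · rintro h ⟨m, h1, h2, h3, h4⟩
    refine h m ?_ h3 h2
    rw [natAbs_sum_odd, Nat.odd_iff]
    rw [Nat.even_iff] at h4
    omega

theorem noOdd_all : NoOdd ↔ ∀ k : ℕ, NoOddUpTo (2 * k + 1) := by
  rw [← noOdd_iff, Od_iff]
  push Not
  exact forall_congr' fun k => noOddUpTo_iff k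

/-- **The theorem.** -/
theorem result :
    (Bounded ↔ RiemannHypothesis) ∧
    (RiemannHypothesis → limsup a atTop = S ∧ -S ≤ liminf a atTop ∧ (liminf a atTop = -S ↔ NoOdd) ∧
      ∀ k : ℕ, ∃ E : ℝ, 0 ≤ E ∧ Tendsto (mean (2 * k + 1)) (𝓝[>] 0) (𝓝 E) ∧ (E = 0 ↔ NoOddUpTo (2 * k + 1))) ∧
    (RiemannHypothesis ∧ NoOdd ↔ Bounded ∧ liminf a atTop = -S) ∧
    (RiemannHypothesis ∧ NoOdd ↔ Bounded ∧ liminf a atTop = -limsup a atTop) ∧
    (RiemannHypothesis ∧ NoOdd ↔ Bounded ∧ ∀ k : ℕ, Tendsto (mean (2 * k + 1)) (𝓝[>] 0) (𝓝 0)) := by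
  have ha : a = aa := rfl
  have hb : Bounded ↔ RiemannHypothesis := by
    constructor
    · intro h
      by_contra hRH
      obtain ⟨δ₀, h0, h1⟩ := noZ hRH
      exact not_bdd (a := aa) aa_cont (K' := 0) (fun u _ => by simp) (half_pos h0) (h1 _ (half_pos h0) (by linarith)) h
    · intro hRH
      obtain ⟨B, hB⟩ := nrZ hRH
      exact ⟨B, hB.ba⟩
  have hw1 : ∀ t : Ord, 0 < WW (e t) := fun t => WW_pos (e t)
  have hs1 : Summable fun t : Ord => WW (e t) := e.summable_iff.2 WW_summable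
  have hF1 : FI (fun t : Ord => WW (e t)) (fun t : Ord => (t : ℝ)) = FFz := by
    funext u
    exact e.tsum_eq (fun t : TI => 2 * WW t * Real.cos (t * u))
  have main : RiemannHypothesis → limsup a atTop = S ∧ -S ≤ liminf a atTop ∧ (liminf a atTop = -S ↔ NoOdd) ∧
      ∀ k : ℕ, ∃ E : ℝ, 0 ≤ E ∧ Tendsto (mean (2 * k + 1)) (𝓝[>] 0) (𝓝 E) ∧ (E = 0 ↔ NoOddUpTo (2 * k + 1)) := by
    intro hRH
    obtain ⟨B, hB⟩ := nrZ hRH
    have q1 : Nr aa (fun u => 0 + FI (fun t : Ord => WW (e t)) (fun t : Ord => (t : ℝ)) u) B := by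
      rw [hF1]
      simpa using hB
    have hS : ∑' t : Ord, 2 * WW (e t) = S := by
      rw [show S = 2 + Real.eulerMascheroniConstant - Real.log (4 * Real.pi) from rfl, ← sum_WW hRH]
      exact e.tsum_eq (fun t : TI => 2 * WW t)
    obtain ⟨h1, h2, h3⟩ := lims _ q1 hw1 hs1 (fun t => t.2.1.ne')
    rw [hS, zero_add] at h1
    rw [hS, zero_sub] at h2 h3
    rw [noOdd_iff] at h3
    refine ⟨h1, h2, h3, fun k => ?_⟩
    obtain ⟨m1, m2, m3⟩ := Ek_Mk (fun t : Ord => (t : ℝ)) hw1 hs1 (2 * k + 1)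
    have hM0 : Mk (fun t : Ord => WW (e t)) (2 * k + 1) = 0 := Mk_odd (by
      rw [Nat.even_iff]
      omega)
    rw [hM0] at m2 m3
    rw [noOddUpTo_iff] at m3
    refine ⟨_, m2, ?_, m3⟩
    have h4 := mom_lim _ q1 hw1 hs1 (2 * k + 1)
    simp_rw [sub_zero] at h4
    exact h4
  refine ⟨hb, main, ?_, ?_, ?_⟩
  · constructor
    · rintro ⟨h1, h2⟩
      exact ⟨hb.2 h1, (main h1).2.2.1.2 h2⟩
    · rintro ⟨h1, h2⟩
      exact ⟨hb.1 h1, (main (hb.1 h1)).2.2.1.1 h2⟩
  · constructor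
    · rintro ⟨h1, h2⟩
      refine ⟨hb.2 h1, ?_⟩
      rw [(main h1).1]
      exact (main h1).2.2.1.2 h2
    · rintro ⟨h1, h2⟩
      rw [(main (hb.1 h1)).1] at h2
      exact ⟨hb.1 h1, (main (hb.1 h1)).2.2.1.1 h2⟩
  · constructor
    · rintro ⟨h1, h2⟩
      refine ⟨hb.2 h1, fun k => ?_⟩
      obtain ⟨E, -, h4, h5⟩ := (main h1).2.2.2 k
      rwa [h5.2 (noOdd_all.1 h2 k)] at h4
    · rintro ⟨h1, h2⟩
      refine ⟨hb.1 h1, noOdd_all.2 fun k => ?_⟩
      obtain ⟨E, -, h4, h5⟩ := (main (hb.1 h1)).2.2.2 k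
      exact h5.1 (tendsto_nhds_unique h4 (h2 k))

end Pool.Agent.Results.MP_0ec205_nt.ExtremeValues
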