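import Pool.Agent.Run7.h278.LG.TayK

set_option autoImplicit false

/-!
# Expansions of the moments of a prime sum, and near relations between the ordinates

For `K ≥ 1` let `V δ = δ ∫_0^∞ e^(-δ u) b(u)^(2K) du` where
`b(u) = e^(u/2) (∑_{n ≤ e^u} Λ(n) (1/n - e^(-u)) - u + 1 + γ) - log (2π) e^(-u/2) + ∑_k e^(-(2k+5/2)u) / ((2k+2)(2k+3))`.
Let `c > 0`.  If `V δ` is finite and agrees with a polynomial in `δ²` up to `O(δ^c)` for `0 < δ < 1`, then the Riemann
hypothesis holds and the weighted number of the `2K`-tuples of signed ordinates whose sum is nonzero and at most `δ` in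
absolute value is `O(δ^c)`; the converse holds if `c` is not an even integer.  The constant term is for every `K` the
moment for independent phases, with orders `c K` which are not even integers, if and only if the Riemann hypothesis
holds, the ordinates are linearly independent over `ℚ`, and these weighted numbers are `O(δ^(c K))`.
-/

namespace Pool.Agent.Results.MP_0ec205_nt.MomentRates

open Filter Topology MeasureTheory Set Run7.h278.LM Run7.h278.WL Run7.h278.LG
open scoped ENNReal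

/-- the positive ordinates of the zeros on the critical line -/
def Γ : Set ℝ := {t : ℝ | 0 < t ∧ riemannZeta (1 / 2 + Complex.I * t) = 0}

/-- the multiplicity of the zero `1/2 + i t` -/
noncomputable def mult (t : ℝ) : ℕ := analyticOrderNatAt riemannZeta (1 / 2 + Complex.I * t)

/-- the remainder in the mean value of the von Mangoldt function, at `x = e^u`, without the terms of the trivial zeros -/
noncomputable def b (u : ℝ) : ℝ :=
  Real.exp (u / 2) * (∑ n ∈ Finset.Icc 1 ⌊Real.exp u⌋₊, ArithmeticFunction.vonMangoldt n * (1 / (n : ℝ) - Real.exp (-u)) -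
    u + 1 + Real.eulerMascheroniConstant) - Real.log (2 * Real.pi) * Real.exp (-u / 2) +
    ∑' k : ℕ, 1 / ((2 * (k : ℝ) + 2) * (2 * k + 3)) * Real.exp (-(2 * k + 5 / 2) * u)

/-- the Abel mean of `b(u)^(2K)` -/
noncomputable def V (K : ℕ) (δ : ℝ) : ℝ≥0∞ :=
  ∫⁻ u in Ioi (0 : ℝ), ENNReal.ofReal (δ * Real.exp (-δ * u) * b u ^ (2 * K))

/-- `V` is finite and agrees with a polynomial in `δ²` up to `O(δ^c)` -/
def Exp (K : ℕ) (c : ℝ) : Prop := ∃ (q : Polynomial ℝ) (C : ℝ), ∀ δ : ℝ, 0 < δ → δ < 1 →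
  V K δ < ⊤ ∧ |(V K δ).toReal - q.eval (δ ^ 2)| ≤ C * δ ^ c

/-- `V` is finite and agrees with a polynomial in `δ²` with constant term `D` up to `O(δ^c)` -/
def ExpTo (K : ℕ) (D c : ℝ) : Prop := ∃ (q : Polynomial ℝ) (C : ℝ), q.eval 0 = D ∧ ∀ δ : ℝ, 0 < δ → δ < 1 →
  V K δ < ⊤ ∧ |(V K δ).toReal - q.eval (δ ^ 2)| ≤ C * δ ^ c

open Classical in
/-- the weight of a `p`-tuple of signed ordinates if its sum is nonzero and at most `v` in absolute value, else `0` -/
noncomputable def near (p : ℕ) (v : ℝ) (f : Fin p → {t : ℝ // |t| ∈ Γ}) : ℝ :=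
  if 0 < |∑ i, (f i : ℝ)| ∧ |∑ i, (f i : ℝ)| ≤ v then ∏ i, ((mult |(f i : ℝ)| : ℝ) / (1 / 4 + (f i : ℝ) ^ 2)) else 0

/-- the weighted number of near relations of length `p` is `O(v^c)` -/
def Near (p : ℕ) (c : ℝ) : Prop := ∃ C : ℝ, ∀ v : ℝ, 0 < v → v < 1 → ∑' f : Fin p → {t : ℝ // |t| ∈ Γ}, near p v f ≤ C * v ^ c

/-- the term of the exponents `n` in the moment for independent phases -/
noncomputable def term {ι : Type} (w : ι → ℝ) (n : ι →₀ ℕ) : ℝ := (n.prod fun x k => w x ^ k / (k.factorial : ℝ)) ^ 2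

/-- the moment for independent phases -/
noncomputable def Dmom (K : ℕ) : ℝ :=
  (2 * K).factorial * ∑' n : {n : Γ →₀ ℕ // n.degree = K}, term (fun t : Γ => mult t / (1 / 4 + (t : ℝ) ^ 2)) n.1

/-- **The theorem.** -/
theorem result :
    (∀ (p : ℕ) (v : ℝ), Summable (near p v)) ∧
    (∀ K : ℕ, Summable fun n : {n : Γ →₀ ℕ // n.degree = K} => term (fun t : Γ => mult t / (1 / 4 + (t : ℝ) ^ 2)) n.1) ∧
    (∀ K : ℕ, 1 ≤ K → ∀ c : ℝ, 0 < c → (Exp K c → RiemannHypothesis ∧ Near (2 * K) c) ∧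
      ((∀ n : ℕ, c ≠ 2 * n) → RiemannHypothesis → Near (2 * K) c → Exp K c)) ∧
    (∀ c : ℕ → ℝ, (∀ K, 0 < c K) → (∀ K n : ℕ, c K ≠ 2 * n) → ((∀ K : ℕ, 1 ≤ K → ExpTo K (Dmom K) (c K)) ↔
      RiemannHypothesis ∧ (LinearIndependent ℚ fun t : Γ => (t : ℝ)) ∧ ∀ K : ℕ, 1 ≤ K → Near (2 * K) (c K))) := by
  classical
  have hV : ∀ K : ℕ, V K = PM bc 0 K := by
    intro K
    funext δ
    unfold V PM
    simp_rw [sub_zero]
    refine setLIntegral_congr_fun measurableSet_Ioi fun u hu => ?_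
    have hu0 : (0 : ℝ) < u := hu
    have e : b u = bc u := by
      unfold bc
      rw [max_eq_left hu0.le]
      rfl
    show ENNReal.ofReal (δ * Real.exp (-δ * u) * b u ^ (2 * K)) = ENNReal.ofReal (δ * Real.exp (-δ * u) * bc u ^ (2 * K))
    rw [e]
  set e : Γ ≃ TI := Equiv.subtypeEquivRight fun t => by
    show 0 < t ∧ riemannZeta (1 / 2 + Complex.I * t) = 0 ↔ _
    rw [Z_zero_iff] with he
  have hw1 : ∀ t : Γ, 0 < (mult t : ℝ) / (1 / 4 + (t : ℝ) ^ 2) := fun t => WW_pos (e t)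
  have hs1 : Summable fun t : Γ => (mult t : ℝ) / (1 / 4 + (t : ℝ) ^ 2) := e.summable_iff.2 WW_summable
  have hN : ∀ (p : ℕ) (v : ℝ), ∑' f : Fin p → {t : ℝ // |t| ∈ Γ}, near p v f = NZ p v := fun p v => rfl
  have hN2 : ∀ (p : ℕ) (c : ℝ), Near p c ↔ ∃ C : ℝ, ∀ v : ℝ, 0 < v → v < 1 → NZ p v ≤ C * v ^ c := fun p c => by
    unfold Near
    simp only [hN]
  refine ⟨fun p v => ?_, fun K => sq_summable hw1 hs1 K, fun K hK c hc => ?_, fun c hc hne => ?_⟩
  · have h1 := nT_sum (τ := tt fun t : TZ => (t : ℝ)) (xx_pos (w := wZ) hw1) (xx_sum (w := wZ) hs1) p v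
    exact (NZ_summable p v).2 h1
  · have h1 := zeta_expand hK hc
    simp only [← NZ_eq] at h1
    rw [hN2]
    have hE : Exp K c ↔ ExpAt (PM bc 0 K) c := by
      unfold Exp ExpAt
      rw [hV]
    rw [hE]
    exact h1
  · have h1 := zeta_expand_LI hc hne
    have e1 : (∀ K : ℕ, 1 ≤ K → ExpTo K (Dmom K) (c K)) ↔ ∀ K : ℕ, 1 ≤ K → ExpD (PM bc 0 K) (DmZ K) (c K) := by
      refine forall_congr' fun K => forall_congr' fun _ => ?_
      unfold ExpTo ExpD
      rw [hV]
      rfl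
    rw [e1, h1]
    refine and_congr_right fun _ => and_congr_right fun _ => forall_congr' fun K => forall_congr' fun _ => (hN2 _ _).symm

end Pool.Agent.Results.MP_0ec205_nt.MomentRates
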